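import Pool.Agent.Lib.MP_b2d7d1_an.Pointwise

set_option autoImplicit false

open Filter Topology MeasureTheory Real

namespace Pool.Agent.Lib.MP_b2d7d1_an

/-- The logarithm of `U` on a circle. -/
noncomputable def L (k : ℕ) (r θ : ℝ) : ℝ := R k ^ 2 * Real.log (r / R k) + R k * r * Real.cos θ

lemma continuous_L (k : ℕ) (r : ℝ) : Continuous (L k r) := by
  unfold L
  fun_prop

lemma circleMap_re (r θ : ℝ) : (circleMap 0 r θ).re = r * Real.cos θ := by
  simp [circleMap, Complex.exp_re]

lemma circleMap_im (r θ : ℝ) : (circleMap 0 r θ).im = r * Real.sin θ := by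
  simp [circleMap, Complex.exp_im]

lemma norm_circleMap' {r : ℝ} (hr : 0 ≤ r) (θ : ℝ) : ‖circleMap 0 r θ‖ = r := by
  rw [norm_circleMap_zero, abs_of_nonneg hr]

lemma log_U_circle (k : ℕ) {r : ℝ} (hr : 0 < r) (θ : ℝ) :
    Real.log (U k (circleMap 0 r θ)) = L k r θ := by
  unfold U L
  rw [norm_circleMap' hr.le, circleMap_re, Real.log_mul (rho_pos k hr).ne' (Real.exp_pos _).ne',
    Real.log_exp]
  unfold rho
  rw [Real.log_pow, Nn_cast]
  ring

/-- The cap integral. -/
noncomputable def p (n : ℕ) (r : ℝ) : ℝ := ∫ θ in (0 : ℝ)..(1 / 2), max 0 (L (n + 1) r θ)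

lemma continuous_maxL (k : ℕ) (r : ℝ) : Continuous (fun θ => max 0 (L k r θ)) :=
  continuous_const.max (continuous_L k r)

lemma circleAverage_rot (g : ℂ → ℝ) (c : ℂ) (hc : ‖c‖ = 1) (r : ℝ) :
    circleAverage (fun z => g (c * z)) 0 r = circleAverage g 0 r := by
  rw [circleAverage_eq_integral_add (f := g) (Complex.arg c), circleAverage_def]
  congr 2
  ext θ
  congr 1
  have h1 : c = Complex.exp (Complex.arg c * Complex.I) := by
    have := Complex.norm_mul_exp_arg_mul_I c
    rw [hc] at this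
    simpa using this.symm
  unfold circleMap
  nth_rewrite 1 [h1]
  simp only [zero_add]
  push_cast
  rw [add_mul, Complex.exp_add]
  ring

lemma antitone_L (k : ℕ) {r : ℝ} (hr : 0 ≤ r) : AntitoneOn (L k r) (Set.Icc 0 π) := by
  intro a ha b hb hab
  unfold L
  have h1 : Real.cos b ≤ Real.cos a := Real.antitoneOn_cos ha hb hab
  have h2 := R_pos k
  have h3 : R k * r * Real.cos b ≤ R k * r * Real.cos a :=
    mul_le_mul_of_nonneg_left h1 (by positivity)
  linarith

lemma integral_max_le {n : ℕ} {r : ℝ} (hr : 0 ≤ r) :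
    ∫ θ in (0 : ℝ)..(2 * π), max 0 (L (n + 1) r θ) ≤ 4 * π * p n r := by
  have hint : ∀ a b : ℝ, IntervalIntegrable (fun θ => max 0 (L (n + 1) r θ)) volume a b :=
    fun a b => (continuous_maxL (n + 1) r).intervalIntegrable a b
  have h1 : ∫ θ in (0 : ℝ)..(2 * π), max 0 (L (n + 1) r θ) =
      (∫ θ in (0 : ℝ)..π, max 0 (L (n + 1) r θ)) + ∫ θ in π..(2 * π), max 0 (L (n + 1) r θ) :=
    (intervalIntegral.integral_add_adjacent_intervals (hint _ _) (hint _ _)).symm
  have h2 : ∫ θ in π..(2 * π), max 0 (L (n + 1) r θ) = ∫ θ in (0 : ℝ)..π, max 0 (L (n + 1) r θ) := by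
    have h3 := intervalIntegral.integral_comp_sub_left (a := 0) (b := π)
      (fun θ => max 0 (L (n + 1) r θ)) (2 * π)
    have h4 : ∀ θ, L (n + 1) r (2 * π - θ) = L (n + 1) r θ := by
      intro θ
      unfold L
      rw [Real.cos_two_pi_sub]
    simp only [h4] at h3
    rw [h3]
    congr 1
    · ring
    · ring
  have h5 : ∫ θ in (0 : ℝ)..π, max 0 (L (n + 1) r θ) ≤ 2 * π * p n r := by
    have h6 := intervalIntegral.mul_integral_comp_mul_left (a := 0) (b := 1 / 2)
      (f := fun θ => max 0 (L (n + 1) r θ)) (2 * π)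
    have h7 : 2 * π * 0 = 0 := by ring
    have h8 : 2 * π * (1 / 2) = π := by ring
    rw [h7, h8] at h6
    rw [← h6]
    apply mul_le_mul_of_nonneg_left _ (by positivity)
    unfold p
    apply intervalIntegral.integral_mono_on (by norm_num)
    · apply Continuous.intervalIntegrable
      exact (continuous_maxL (n + 1) r).comp (by fun_prop)
    · exact hint _ _
    · intro t ht
      apply max_le_max le_rfl
      have hpi := Real.pi_gt_three
      apply antitone_L (n + 1) hr
      · constructor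
        · exact ht.1
        · linarith [ht.2]
      · constructor
        · have := ht.1
          positivity
        · nlinarith [ht.2, Real.pi_pos]
      · nlinarith [ht.1, Real.pi_gt_three]
  rw [h1, h2]
  linarith

lemma continuous_U (k : ℕ) : Continuous (U k) := by
  unfold U rho
  fun_prop

lemma circleAverage_U_le {n : ℕ} {r : ℝ} (hr : 0 < r) :
    circleAverage (fun z => log⁺ (U (n + 1) z)) 0 r ≤ 2 * p n r := by
  rw [circleAverage_def]
  have h1 : ∀ θ, log⁺ (U (n + 1) (circleMap 0 r θ)) = max 0 (L (n + 1) r θ) := by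
    intro θ
    rw [Real.posLog_apply, log_U_circle (n + 1) hr]
  simp only [h1, smul_eq_mul]
  have h2 := integral_max_le (n := n) hr.le
  have h3 : (2 * π)⁻¹ * (4 * π * p n r) = 2 * p n r := by
    field_simp
    ring
  rw [← h3]
  apply mul_le_mul_of_nonneg_left h2 (by positivity)

lemma posLog_five (a b c d e : ℝ) :
    log⁺ (a + (b + c + d + e)) ≤ Real.log 5 + log⁺ a + log⁺ b + log⁺ c + log⁺ d + log⁺ e := by
  have h := Real.posLog_sum Finset.univ ![a, b, c, d, e]
  simp [Fin.sum_univ_five] at h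
  have : a + (b + c + d + e) = a + b + c + d + e := by ring
  rw [this]
  linarith

lemma prox_upper_aux (F : ℂ → ℂ) (hF : Differentiable ℂ F) {n : ℕ} {r : ℝ} (h : R n ≤ r)
    (_h' : r ≤ R (n + 1))
    (hup : ∀ z : ℂ, ‖z‖ = r → ‖F z‖ ≤ Real.exp (3 * (R n * ‖z‖)) + (U (n + 1) z + U (n + 1) (-z)
      + U (n + 1) (Complex.I * z) + U (n + 1) (-(Complex.I * z)))) :
    ValueDistribution.proximity F ⊤ r ≤ Real.log 5 + 3 * (R n * r) + 8 * p n r := by
  have hr : 0 < r := (R_pos n).trans_le h
  rw [ValueDistribution.proximity_top]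
  have hcU : ∀ c : ℂ, Continuous (fun z => log⁺ (U (n + 1) (c * z))) := by
    intro c
    exact Real.continuous_posLog.comp ((continuous_U (n + 1)).comp (by fun_prop))
  have hci : ∀ c : ℂ, CircleIntegrable (fun z => log⁺ (U (n + 1) (c * z))) 0 r := by
    intro c
    exact (hcU c).continuousOn.circleIntegrable'
  have hrot : ∀ c : ℂ, ‖c‖ = 1 →
      circleAverage (fun z => log⁺ (U (n + 1) (c * z))) 0 r ≤ 2 * p n r := by
    intro c hc
    rw [circleAverage_rot (fun z => log⁺ (U (n + 1) z)) c hc]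
    exact circleAverage_U_le hr
  have hmono : circleAverage (fun z => log⁺ ‖F z‖) 0 r ≤ circleAverage (fun z =>
      (Real.log 5 + 3 * (R n * r)) + ((log⁺ (U (n + 1) (1 * z)) + log⁺ (U (n + 1) (-1 * z)))
        + (log⁺ (U (n + 1) (Complex.I * z)) + log⁺ (U (n + 1) (-Complex.I * z))))) 0 r := by
    apply circleAverage_mono
    · exact (Real.continuous_posLog.comp hF.continuous.norm).continuousOn.circleIntegrable'
    · apply Continuous.continuousOn _ |>.circleIntegrable'
      have := hcU 1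
      have := hcU (-1)
      have := hcU Complex.I
      have := hcU (-Complex.I)
      fun_prop
    · intro z hz
      have hz' : ‖z‖ = r := by
        rw [mem_sphere_zero_iff_norm, abs_of_pos hr] at hz
        exact hz
      have h1 := hup z hz'
      have h2 : log⁺ ‖F z‖ ≤ _ := Real.posLog_le_posLog (norm_nonneg _) h1
      refine h2.trans ((posLog_five _ _ _ _ _).trans ?_)
      have h3 : log⁺ (Real.exp (3 * (R n * ‖z‖))) = 3 * (R n * r) := by
        rw [Real.posLog_apply, Real.log_exp, hz', max_eq_right]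
        have := R_pos n
        positivity
      rw [h3, one_mul, neg_one_mul, neg_mul]
      linarith
  refine hmono.trans ?_
  have c1 : CircleIntegrable (fun _ : ℂ => Real.log 5 + 3 * (R n * r)) 0 r :=
    circleIntegrable_const _ _ _
  have c2 : CircleIntegrable (fun z => log⁺ (U (n + 1) (1 * z)) + log⁺ (U (n + 1) (-1 * z))) 0 r :=
    (hci _).add (hci _)
  have c3 : CircleIntegrable (fun z => log⁺ (U (n + 1) (Complex.I * z))
      + log⁺ (U (n + 1) (-Complex.I * z))) 0 r := (hci _).add (hci _)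
  have c4 : CircleIntegrable (fun z => (log⁺ (U (n + 1) (1 * z)) + log⁺ (U (n + 1) (-1 * z)))
      + (log⁺ (U (n + 1) (Complex.I * z)) + log⁺ (U (n + 1) (-Complex.I * z)))) 0 r := c2.add c3
  rw [circleAverage_fun_add c1 c4, circleAverage_fun_add c2 c3,
    circleAverage_fun_add (hci _) (hci _), circleAverage_fun_add (hci _) (hci _),
    circleAverage_const]
  have r1 := hrot 1 (by simp)
  have r2 := hrot (-1) (by simp)
  have r3 := hrot Complex.I (by simp)
  have r4 := hrot (-Complex.I) (by simp)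
  linarith

lemma prox_B_le {n : ℕ} {r : ℝ} (h : R n ≤ r) (h' : r ≤ R (n + 1)) :
    ValueDistribution.proximity B ⊤ r ≤ Real.log 5 + 3 * (R n * r) + 8 * p n r :=
  prox_upper_aux B differentiable_B h h'
    (fun z hz => upper_B (by rw [hz]; exact h) (by rw [hz]; exact h'))

lemma prox_A_le {n : ℕ} {r : ℝ} (h : R n ≤ r) (h' : r ≤ R (n + 1)) :
    ValueDistribution.proximity A ⊤ r ≤ Real.log 5 + 3 * (R n * r) + 8 * p n r :=
  prox_upper_aux A differentiable_A h h'
    (fun z hz => upper_A (by rw [hz]; exact h) (by rw [hz]; exact h'))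

lemma analyticOnNhd_A : AnalyticOnNhd ℂ A Set.univ :=
  differentiable_A.differentiableOn.analyticOnNhd isOpen_univ

lemma analyticOnNhd_B : AnalyticOnNhd ℂ B Set.univ :=
  differentiable_B.differentiableOn.analyticOnNhd isOpen_univ

lemma meromorphic_A : Meromorphic A := fun z => (analyticOnNhd_A z (Set.mem_univ z)).meromorphicAt

lemma meromorphic_B : Meromorphic B := fun z => (analyticOnNhd_B z (Set.mem_univ z)).meromorphicAt

lemma logCounting_top_of_entire {F : ℂ → ℂ} (hF : AnalyticOnNhd ℂ F Set.univ) :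
    ValueDistribution.logCounting F ⊤ = 0 := by
  have h := ValueDistribution.logCounting_add_analyticOn (f := (0 : ℂ → ℂ)) (g := F)
    (fun z => MeromorphicAt.const 0 z) hF.analyticOn
  rw [zero_add] at h
  rw [h]
  simp

/-- A nonzero value of `B`. -/
lemma B_ne_zero : B (R 0 : ℂ) ≠ 0 := by
  have hR := R_ge 0
  have hn : ‖((R 0 : ℝ) : ℂ)‖ = R 0 := by
    rw [Complex.norm_real, Real.norm_of_nonneg (R_pos 0).le]
  have h1 : 4 * U (0 + 1) (R 0 : ℂ) ≤ U 0 (R 0 : ℂ) := by
    have h2 : U (0 + 1) (R 0 : ℂ) ≤ 1 := by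
      refine (U_le (0 + 1) _).trans ?_
      rw [hn]
      rw [Real.exp_le_one_iff]
      have := R_succ_ge 0
      nlinarith [R_pos 0, R_pos (0 + 1)]
    have h3 : U 0 (R 0 : ℂ) = Real.exp (R 0 * R 0) := by
      unfold U rho
      rw [hn, div_self (R_pos 0).ne', one_pow, one_mul, Complex.ofReal_re]
    rw [h3]
    have := Real.add_one_le_exp (R 0 * R 0)
    nlinarith
  have h2 := (sector_est (n := 0) (z := (R 0 : ℂ)) (by rw [hn]) (by rw [hn]; exact (R_lt_succ 0).le)
    (by rw [hn, Complex.ofReal_re]; linarith) (by rw [hn, Complex.ofReal_im, abs_zero]; linarith)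
    (Or.inr h1) _ rfl).2
  intro h0
  rw [h0, norm_zero] at h2
  have := Real.exp_pos (max (Real.log (U 0 (R 0 : ℂ))) (Real.log (U (0 + 1) (R 0 : ℂ))))
  linarith

lemma exists_A_ne_B : ∃ z, A z ≠ B z := by
  by_contra hcon
  push Not at hcon
  apply B_ne_zero
  have h1 := A_I (R 0 : ℂ)
  rw [hcon, hcon, B_I] at h1
  have h2 : (1 - Complex.I) * B (R 0 : ℂ) = 0 := by linear_combination h1
  rcases mul_eq_zero.mp h2 with h3 | h3
  · exfalso
    have := congrArg Complex.im h3
    simp at this
  · exact h3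

lemma ae_ne {r : ℝ} (hr : r ≠ 0) :
    ∀ᵐ θ : ℝ, A (circleMap 0 r θ) ≠ B (circleMap 0 r θ) := by
  obtain ⟨z0, hz0⟩ := exists_A_ne_B
  have han : AnalyticOnNhd ℂ (A - B) Set.univ := analyticOnNhd_A.sub analyticOnNhd_B
  have h1 : (A - B) ⁻¹' {0}ᶜ ∈ codiscrete ℂ :=
    han.preimage_zero_mem_codiscrete (x := z0) (by simpa [sub_ne_zero] using hz0)
  have h2 : (circleMap 0 r) ⁻¹' ((A - B) ⁻¹' {0}ᶜ) ∈ codiscrete ℝ :=
    circleMap_preimage_codiscrete hr (codiscreteWithin_mono (by tauto) h1)
  have h3 := ae_restrict_le_codiscreteWithin (μ := (volume : Measure ℝ)) (U := Set.univ)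
    MeasurableSet.univ h2
  rw [Measure.restrict_univ] at h3
  filter_upwards [h3] with θ hθ
  simpa [sub_eq_zero] using hθ

end Pool.Agent.Lib.MP_b2d7d1_an
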