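import Mathlib

set_option autoImplicit false

open Filter Topology

namespace Pool.Agent.Lib.MP_b2d7d1_an

/-- The radii, as natural numbers: `1000 ^ (2 ^ k)`. -/
def Rn (k : ℕ) : ℕ := 1000 ^ (2 ^ k)

/-- The radii, as real numbers. -/
noncomputable def R (k : ℕ) : ℝ := (Rn k : ℝ)

/-- The exponents. -/
def Nn (k : ℕ) : ℕ := Rn k ^ 2

lemma Rn_succ (k : ℕ) : Rn (k + 1) = Rn k ^ 2 := by
  unfold Rn
  rw [pow_succ, pow_mul]

lemma thousand_le_Rn (k : ℕ) : 1000 ≤ Rn k := by
  unfold Rn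
  calc 1000 = 1000 ^ 1 := by norm_num
    _ ≤ 1000 ^ (2 ^ k) := Nat.pow_le_pow_right (by norm_num) Nat.one_le_two_pow

lemma R_ge (k : ℕ) : (1000 : ℝ) ≤ R k := by
  unfold R
  exact_mod_cast thousand_le_Rn k

lemma R_pos (k : ℕ) : 0 < R k := by linarith [R_ge k]

lemma R_succ (k : ℕ) : R (k + 1) = R k ^ 2 := by
  unfold R
  rw [Rn_succ]
  push_cast
  ring

lemma R_succ_ge (k : ℕ) : 1000 * R k ≤ R (k + 1) := by
  rw [R_succ, sq]
  exact mul_le_mul_of_nonneg_right (R_ge k) (R_pos k).le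

lemma R_lt_succ (k : ℕ) : R k < R (k + 1) := by
  have := R_succ_ge k
  have := R_pos k
  linarith

lemma R_strictMono : StrictMono R := strictMono_nat_of_lt_succ R_lt_succ

lemma R_mono : Monotone R := R_strictMono.monotone

lemma succ_le_R (k : ℕ) : (k : ℝ) + 1 ≤ R k := by
  induction k with
  | zero => have := R_ge 0; push_cast; linarith
  | succ k ih =>
    have h1 := R_succ_ge k
    have h2 := R_pos k
    push_cast
    have : (0 : ℝ) ≤ k := Nat.cast_nonneg k
    linarith

lemma R_tendsto : Tendsto R atTop atTop := by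
  apply tendsto_atTop_mono (f := fun k : ℕ => (k : ℝ))
  · intro k
    have := succ_le_R k
    linarith
  · exact tendsto_natCast_atTop_atTop

lemma Nn_cast (k : ℕ) : ((Nn k : ℕ) : ℝ) = R k ^ 2 := by
  unfold Nn R
  push_cast
  ring

lemma four_dvd_Nn (k : ℕ) : 4 ∣ Nn k := by
  have h2 : 2 ∣ Rn k := by
    unfold Rn
    exact dvd_pow (by norm_num) (by positivity)
  unfold Nn
  obtain ⟨c, hc⟩ := h2
  rw [hc]
  exact ⟨c ^ 2, by ring⟩

lemma Nn_pos (k : ℕ) : 0 < Nn k := by
  unfold Nn
  have := thousand_le_Rn k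
  positivity

/-- Modulus of the radial factor. -/
noncomputable def rho (k : ℕ) (r : ℝ) : ℝ := (r / R k) ^ (Nn k)

lemma rho_nonneg (k : ℕ) {r : ℝ} (hr : 0 ≤ r) : 0 ≤ rho k r := by
  unfold rho
  have := R_pos k
  positivity

/-- The key universal inequality. -/
lemma rho_mul_exp_le (k : ℕ) {r : ℝ} (hr : 0 ≤ r) :
    rho k r * Real.exp (R k * r) ≤ Real.exp (2 * R k * r - R k ^ 2) := by
  have hR := R_pos k
  set t : ℝ := r / R k with ht
  have ht0 : 0 ≤ t := by positivity
  have h1 : t * Real.exp t ≤ Real.exp (2 * t - 1) := by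
    have h2 : t ≤ Real.exp (t - 1) := by
      have := Real.add_one_le_exp (t - 1)
      linarith
    calc t * Real.exp t ≤ Real.exp (t - 1) * Real.exp t :=
          mul_le_mul_of_nonneg_right h2 (Real.exp_pos t).le
      _ = Real.exp (2 * t - 1) := by rw [← Real.exp_add]; congr 1; ring
  have h3 : R k * r = (Nn k : ℕ) * t := by
    rw [Nn_cast, ht]
    field_simp
  have h4 : rho k r * Real.exp (R k * r) = (t * Real.exp t) ^ (Nn k) := by
    rw [mul_pow, ← Real.exp_nat_mul, h3]
    rfl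
  rw [h4]
  calc (t * Real.exp t) ^ (Nn k) ≤ (Real.exp (2 * t - 1)) ^ (Nn k) := by
        apply pow_le_pow_left₀ (by positivity) h1
    _ = Real.exp ((Nn k : ℕ) * (2 * t - 1)) := by rw [← Real.exp_nat_mul]
    _ = Real.exp (2 * R k * r - R k ^ 2) := by
        congr 1
        rw [Nn_cast, ht]
        field_simp

/-- Tail bound. -/
lemma exp_tail_le (k : ℕ) {r : ℝ} (hr : 4 * r ≤ R k) :
    Real.exp (2 * R k * r - R k ^ 2) ≤ (1 / 2) ^ (k + 1) := by
  have hR := R_pos k
  have hk := succ_le_R k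
  have h1000 := R_ge k
  have h1 : 2 * R k * r - R k ^ 2 ≤ -((k : ℝ) + 1) := by
    nlinarith
  have h2 : Real.exp (-1) ≤ 1 / 2 := by
    have h3 : (2 : ℝ) ≤ Real.exp 1 := by
      have := Real.add_one_le_exp (1 : ℝ)
      linarith
    rw [Real.exp_neg, one_div]
    exact inv_anti₀ (by norm_num) h3
  calc Real.exp (2 * R k * r - R k ^ 2) ≤ Real.exp (-((k : ℝ) + 1)) := Real.exp_le_exp.mpr h1
    _ = Real.exp (((k + 1 : ℕ) : ℝ) * (-1)) := by congr 1; push_cast; ring
    _ = (Real.exp (-1)) ^ (k + 1) := by rw [Real.exp_nat_mul]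
    _ ≤ (1 / 2) ^ (k + 1) := pow_le_pow_left₀ (Real.exp_pos _).le h2 _

/-- Sum of exponentials, denominators. -/
noncomputable def bb (w : ℂ) : ℂ :=
  Complex.exp w + Complex.exp (-w) + Complex.exp (Complex.I * w) + Complex.exp (-(Complex.I * w))

/-- Sum of exponentials, numerators. -/
noncomputable def aa (w : ℂ) : ℂ :=
  Complex.exp w - Complex.exp (-w) - Complex.I * Complex.exp (Complex.I * w)
    + Complex.I * Complex.exp (-(Complex.I * w))

lemma bb_I (w : ℂ) : bb (Complex.I * w) = bb w := by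
  unfold bb
  have h : Complex.I * (Complex.I * w) = -w := by
    rw [← mul_assoc, Complex.I_mul_I]; ring
  rw [h, neg_neg]
  ring

lemma aa_I (w : ℂ) : aa (Complex.I * w) = Complex.I * aa w := by
  unfold aa
  have h : Complex.I * (Complex.I * w) = -w := by
    rw [← mul_assoc, Complex.I_mul_I]; ring
  rw [h, neg_neg]
  have h2 : Complex.I * Complex.I = -1 := Complex.I_mul_I
  linear_combination (Complex.exp (Complex.I * w) - Complex.exp (-(Complex.I * w))) * h2

/-- `U k z` is the modulus of the main term. -/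
noncomputable def U (k : ℕ) (z : ℂ) : ℝ := rho k ‖z‖ * Real.exp (R k * z.re)

/-- `V k z` -/
noncomputable def V (k : ℕ) (z : ℂ) : ℝ := rho k ‖z‖ * Real.exp (R k * |z.im|)

noncomputable def q (k : ℕ) (z : ℂ) : ℂ := (z / (R k : ℂ)) ^ (Nn k)

lemma norm_q (k : ℕ) (z : ℂ) : ‖q k z‖ = rho k ‖z‖ := by
  unfold q rho
  rw [norm_pow, norm_div, Complex.norm_real, Real.norm_of_nonneg (R_pos k).le]

lemma q_I (k : ℕ) (z : ℂ) : q k (Complex.I * z) = q k z := by
  unfold q
  obtain ⟨c, hc⟩ := four_dvd_Nn k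
  rw [mul_div_assoc, mul_pow, hc, pow_mul Complex.I 4 c, Complex.I_pow_four, one_pow, one_mul]

noncomputable def tb (k : ℕ) (z : ℂ) : ℂ := q k z * bb (R k * z)

noncomputable def ta (k : ℕ) (z : ℂ) : ℂ := q k z * aa (R k * z)

lemma norm_bb_le (w : ℂ) : ‖bb w‖ ≤ Real.exp (w.re) + Real.exp (-w.re) + Real.exp (-w.im)
    + Real.exp (w.im) := by
  unfold bb
  refine (norm_add_le _ _).trans ?_
  refine add_le_add ((norm_add_le _ _).trans (add_le_add ((norm_add_le _ _).trans ?_) ?_)) ?_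
  · rw [Complex.norm_exp, Complex.norm_exp]; simp
  · rw [Complex.norm_exp]; simp
  · rw [Complex.norm_exp]; simp

lemma norm_aa_le (w : ℂ) : ‖aa w‖ ≤ Real.exp (w.re) + Real.exp (-w.re) + Real.exp (-w.im)
    + Real.exp (w.im) := by
  unfold aa
  refine (norm_add_le _ _).trans ?_
  refine add_le_add ((norm_sub_le _ _).trans (add_le_add ((norm_sub_le _ _).trans ?_) ?_)) ?_
  · rw [Complex.norm_exp, Complex.norm_exp]; simp
  · rw [norm_mul, Complex.norm_I, one_mul, Complex.norm_exp]; simp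
  · rw [norm_mul, Complex.norm_I, one_mul, Complex.norm_exp]; simp

lemma U_nonneg (k : ℕ) (z : ℂ) : 0 ≤ U k z :=
  mul_nonneg (rho_nonneg k (norm_nonneg z)) (Real.exp_pos _).le

lemma V_nonneg (k : ℕ) (z : ℂ) : 0 ≤ V k z :=
  mul_nonneg (rho_nonneg k (norm_nonneg z)) (Real.exp_pos _).le

lemma norm_tb_le (k : ℕ) (z : ℂ) :
    ‖tb k z‖ ≤ U k z + U k (-z) + U k (Complex.I * z) + U k (-(Complex.I * z)) := by
  unfold tb
  rw [norm_mul, norm_q]
  have h := norm_bb_le (R k * z)
  have h0 := rho_nonneg k (norm_nonneg z)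
  calc rho k ‖z‖ * ‖bb (R k * z)‖ ≤ rho k ‖z‖ * _ := mul_le_mul_of_nonneg_left h h0
    _ = _ := by
      unfold U
      simp
      ring

lemma norm_ta_le (k : ℕ) (z : ℂ) :
    ‖ta k z‖ ≤ U k z + U k (-z) + U k (Complex.I * z) + U k (-(Complex.I * z)) := by
  unfold ta
  rw [norm_mul, norm_q]
  have h := norm_aa_le (R k * z)
  have h0 := rho_nonneg k (norm_nonneg z)
  calc rho k ‖z‖ * ‖aa (R k * z)‖ ≤ rho k ‖z‖ * _ := mul_le_mul_of_nonneg_left h h0
    _ = _ := by
      unfold U
      simp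
      ring

lemma U_le (k : ℕ) (z : ℂ) : U k z ≤ Real.exp (2 * R k * ‖z‖ - R k ^ 2) := by
  refine le_trans ?_ (rho_mul_exp_le k (norm_nonneg z))
  unfold U
  apply mul_le_mul_of_nonneg_left _ (rho_nonneg k (norm_nonneg z))
  apply Real.exp_le_exp.mpr
  apply mul_le_mul_of_nonneg_left (Complex.re_le_norm z) (R_pos k).le

lemma V_le (k : ℕ) (z : ℂ) : V k z ≤ Real.exp (2 * R k * ‖z‖ - R k ^ 2) := by
  refine le_trans ?_ (rho_mul_exp_le k (norm_nonneg z))
  unfold V
  apply mul_le_mul_of_nonneg_left _ (rho_nonneg k (norm_nonneg z))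
  apply Real.exp_le_exp.mpr
  apply mul_le_mul_of_nonneg_left (Complex.abs_im_le_norm z) (R_pos k).le

lemma norm_tb_le' (k : ℕ) (z : ℂ) : ‖tb k z‖ ≤ 4 * Real.exp (2 * R k * ‖z‖ - R k ^ 2) := by
  have h := norm_tb_le k z
  have h1 := U_le k z
  have h2 := U_le k (-z)
  have h3 := U_le k (Complex.I * z)
  have h4 := U_le k (-(Complex.I * z))
  simp only [norm_neg, norm_mul, Complex.norm_I, one_mul] at h2 h3 h4
  linarith

lemma norm_ta_le' (k : ℕ) (z : ℂ) : ‖ta k z‖ ≤ 4 * Real.exp (2 * R k * ‖z‖ - R k ^ 2) := by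
  have h := norm_ta_le k z
  have h1 := U_le k z
  have h2 := U_le k (-z)
  have h3 := U_le k (Complex.I * z)
  have h4 := U_le k (-(Complex.I * z))
  simp only [norm_neg, norm_mul, Complex.norm_I, one_mul] at h2 h3 h4
  linarith

lemma summable_bound (r : ℝ) : Summable (fun k => 4 * Real.exp (2 * R k * r - R k ^ 2)) := by
  apply Summable.mul_left
  have hg : Summable (fun k : ℕ => ((1 : ℝ) / 2) ^ (k + 1)) := by
    have := summable_geometric_two
    exact (summable_nat_add_iff 1).mpr this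
  apply Summable.of_norm_bounded_eventually_nat hg
  have h1 : ∀ᶠ k in atTop, 4 * r ≤ R k := R_tendsto.eventually_ge_atTop _
  filter_upwards [h1] with k hk
  rw [Real.norm_of_nonneg (Real.exp_pos _).le]
  exact exp_tail_le k hk

lemma summable_tb (z : ℂ) : Summable (fun k => tb k z) :=
  Summable.of_norm_bounded (summable_bound ‖z‖) (fun k => norm_tb_le' k z)

lemma summable_ta (z : ℂ) : Summable (fun k => ta k z) :=
  Summable.of_norm_bounded (summable_bound ‖z‖) (fun k => norm_ta_le' k z)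

/-- The denominator. -/
noncomputable def B (z : ℂ) : ℂ := ∑' k, tb k z

/-- The numerator. -/
noncomputable def A (z : ℂ) : ℂ := ∑' k, ta k z

lemma B_I (z : ℂ) : B (Complex.I * z) = B z := by
  unfold B
  congr 1
  ext k
  unfold tb
  rw [q_I, ← bb_I (R k * z)]
  congr 2
  ring

lemma A_I (z : ℂ) : A (Complex.I * z) = Complex.I * A z := by
  unfold A
  rw [← tsum_mul_left]
  congr 1
  ext k
  unfold ta
  rw [q_I]
  have : (R k : ℂ) * (Complex.I * z) = Complex.I * (R k * z) := by ring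
  rw [this, aa_I]
  ring

lemma differentiable_tb (k : ℕ) : Differentiable ℂ (tb k) := by
  unfold tb q bb
  fun_prop

lemma differentiable_ta (k : ℕ) : Differentiable ℂ (ta k) := by
  unfold ta q aa
  fun_prop

lemma differentiable_B : Differentiable ℂ B := by
  intro z
  have h : DifferentiableOn ℂ B (Metric.ball 0 (‖z‖ + 1)) := by
    unfold B
    apply Complex.differentiableOn_tsum_of_summable_norm (summable_bound (‖z‖ + 1))
      (fun k => (differentiable_tb k).differentiableOn) Metric.isOpen_ball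
    intro k w hw
    refine (norm_tb_le' k w).trans ?_
    have hw' : ‖w‖ ≤ ‖z‖ + 1 := by
      have := mem_ball_zero_iff.mp hw
      exact this.le
    have := R_pos k
    gcongr
  exact h.differentiableAt (Metric.isOpen_ball.mem_nhds (by simp))

lemma differentiable_A : Differentiable ℂ A := by
  intro z
  have h : DifferentiableOn ℂ A (Metric.ball 0 (‖z‖ + 1)) := by
    unfold A
    apply Complex.differentiableOn_tsum_of_summable_norm (summable_bound (‖z‖ + 1))
      (fun k => (differentiable_ta k).differentiableOn) Metric.isOpen_ball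
    intro k w hw
    refine (norm_ta_le' k w).trans ?_
    have hw' : ‖w‖ ≤ ‖z‖ + 1 := by
      have := mem_ball_zero_iff.mp hw
      exact this.le
    have := R_pos k
    gcongr
  exact h.differentiableAt (Metric.isOpen_ball.mem_nhds (by simp))

/-- General splitting lemma. -/
lemma norm_tsum_sub_le (F : ℕ → ℂ) (hF : Summable F) (n : ℕ) (a e : ℝ) (he : 0 ≤ e)
    (h1 : ∀ k < n, ‖F k‖ ≤ a) (h2 : ∀ k ≥ n + 2, ‖F k‖ ≤ e * (1 / 2) ^ (k + 1)) :
    ‖∑' k, F k - (F n + F (n + 1))‖ ≤ n * a + e := by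
  have h3 : ∑' k, F k = (∑ k ∈ Finset.range n, F k) + (F n + F (n + 1))
      + ∑' k, F (k + (n + 2)) := by
    rw [← hF.sum_add_tsum_nat_add (n + 2), Finset.sum_range_succ, Finset.sum_range_succ]
    ring
  have h4 : ∑' k, F k - (F n + F (n + 1)) = (∑ k ∈ Finset.range n, F k)
      + ∑' k, F (k + (n + 2)) := by rw [h3]; ring
  rw [h4]
  refine (norm_add_le _ _).trans (add_le_add ?_ ?_)
  · refine (norm_sum_le _ _).trans ?_
    calc ∑ k ∈ Finset.range n, ‖F k‖ ≤ ∑ _k ∈ Finset.range n, a :=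
          Finset.sum_le_sum (fun k hk => h1 k (Finset.mem_range.mp hk))
      _ = n * a := by simp
  · have hg : Summable (fun k : ℕ => e * ((1 : ℝ) / 2) ^ (k + 1)) := by
      have := summable_geometric_two
      exact ((summable_nat_add_iff 1).mpr this).mul_left e
    have hsum : ∑' k : ℕ, e * ((1 : ℝ) / 2) ^ (k + 1) = e := by
      rw [tsum_mul_left]
      have : ∑' k : ℕ, ((1 : ℝ) / 2) ^ (k + 1) = 1 := by
        have h5 := (summable_geometric_two).sum_add_tsum_nat_add 1
        rw [tsum_geometric_two] at h5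
        simp at h5
        simp
        linarith
      rw [this, mul_one]
    rw [← hsum]
    apply tsum_of_norm_bounded hg.hasSum
    intro k
    refine (h2 (k + (n + 2)) (by omega)).trans ?_
    apply mul_le_mul_of_nonneg_left _ he
    apply pow_le_pow_of_le_one (by norm_num) (by norm_num)
    omega

end Pool.Agent.Lib.MP_b2d7d1_an
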