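import Pool.Agent.Lib.MP_b2d7d1_an.Lower

set_option autoImplicit false

open Filter Topology MeasureTheory Real

namespace Pool.Agent.Lib.MP_b2d7d1_an

lemma order_ne_top {F : ℂ → ℂ} (hF : AnalyticOnNhd ℂ F Set.univ) {z0 : ℂ} (h0 : F z0 ≠ 0) (z : ℂ) :
    meromorphicOrderAt F z ≠ ⊤ := by
  intro h
  rw [meromorphicOrderAt_eq_top_iff] at h
  have h1 := hF.eqOn_zero_of_preconnected_of_frequently_eq_zero isPreconnected_univ
    (Set.mem_univ z) h.frequently
  exact h0 (h1 (Set.mem_univ z0))

lemma A_ne_zero : A (R 0 : ℂ) ≠ 0 := by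
  have hR := R_ge 0
  have hn : ‖((R 0 : ℝ) : ℂ)‖ = R 0 := by
    rw [Complex.norm_real, Real.norm_of_nonneg (R_pos 0).le]
  have h1 : 4 * U (0 + 1) (R 0 : ℂ) ≤ U 0 (R 0 : ℂ) := by
    have h2 : U (0 + 1) (R 0 : ℂ) ≤ 1 := by
      refine (U_le (0 + 1) _).trans ?_
      rw [hn]
      rw [Real.exp_le_one_iff]
      have := R_succ_ge 0
      nlinarith [R_pos 0, R_pos (0 + 1)]
    have h3 : U 0 (R 0 : ℂ) = Real.exp (R 0 * R 0) := by
      unfold U rho
      rw [hn, div_self (R_pos 0).ne', one_pow, one_mul, Complex.ofReal_re]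
    rw [h3]
    have := Real.add_one_le_exp (R 0 * R 0)
    nlinarith
  have hx : 7 / 8 * ‖((R 0 : ℝ) : ℂ)‖ ≤ ((R 0 : ℝ) : ℂ).re := by
    rw [hn, Complex.ofReal_re]; linarith
  obtain ⟨h2, h3⟩ := sector_est (n := 0) (z := (R 0 : ℂ)) (by rw [hn])
    (by rw [hn]; exact (R_lt_succ 0).le)
    hx (by rw [hn, Complex.ofReal_im, abs_zero]; linarith)
    (Or.inr h1) _ rfl
  set W := max (Real.log (U 0 (R 0 : ℂ))) (Real.log (U (0 + 1) (R 0 : ℂ))) with hW
  have hW1 : 7 / 8 * (R 0 * ‖((R 0 : ℝ) : ℂ)‖) ≤ W :=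
    (le_log_U (n := 0) (by rw [hn]) hx).trans (le_max_left _ _)
  have hRr' := Rr_ge' (n := 0) (r := ‖((R 0 : ℝ) : ℂ)‖) (by rw [hn])
  intro h0
  rw [h0, sub_zero] at h2
  have e1 : Real.exp W = Real.exp (3 / 16 * W) * Real.exp (13 / 16 * W) := by
    rw [← Real.exp_add]; congr 1; ring
  have e2 : 41 ≤ Real.exp (3 / 16 * W) := by
    have := Real.add_one_le_exp (3 / 16 * W)
    linarith
  have e3 := Real.exp_pos (13 / 16 * W)
  nlinarith

lemma f_eq : f = A * B⁻¹ := by
  ext z
  simp [f, div_eq_mul_inv]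

/-- Upper bound for the characteristic. -/
lemma char_upper : ∃ K : ℝ, 0 ≤ K ∧ ∀ (n : ℕ) (r : ℝ), R n ≤ r → r ≤ R (n + 1) →
    ValueDistribution.characteristic f ⊤ r ≤ K + 6 * (R n * r) + 16 * p n r := by
  set K1 := max |Real.log ‖B 0‖| |Real.log ‖meromorphicTrailingCoeffAt B 0‖| with hK1
  have hK10 : 0 ≤ K1 := (abs_nonneg _).trans (le_max_left _ _)
  refine ⟨2 * Real.log 5 + K1, by have := Real.log_nonneg (show (1 : ℝ) ≤ 5 by norm_num);
                                   linarith, ?_⟩
  intro n r h h'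
  have hr1 : 1 ≤ r := by linarith [R_ge n]
  have hA := prox_A_le h h'
  have hB := prox_B_le h h'
  have hinv : ∀ z, meromorphicOrderAt B⁻¹ z ≠ ⊤ := by
    intro z
    rw [meromorphicOrderAt_inv]
    simp [order_ne_top analyticOnNhd_B B_ne_zero z]
  have h1 := ValueDistribution.characteristic_mul_top_le hr1 meromorphic_A
    (order_ne_top analyticOnNhd_A A_ne_zero) meromorphic_B.inv hinv
  rw [← f_eq] at h1
  have h2 := ValueDistribution.characteristic_sub_characteristic_inv_le (R := r) meromorphic_B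
  rw [← hK1] at h2
  have h3 : ValueDistribution.characteristic B ⊤ r = ValueDistribution.proximity B ⊤ r := by
    simp [ValueDistribution.characteristic, logCounting_top_of_entire analyticOnNhd_B]
  have h4 : ValueDistribution.characteristic A ⊤ r = ValueDistribution.proximity A ⊤ r := by
    simp [ValueDistribution.characteristic, logCounting_top_of_entire analyticOnNhd_A]
  have h5 := (abs_le.mp h2).1
  simp only [Pi.add_apply] at h1
  linarith

/-- Lower bound for the characteristic. -/
lemma char_lower : ∃ K : ℝ, 0 ≤ K ∧ ∀ r : ℝ, 1 ≤ r →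
    ValueDistribution.proximity f ((1 : ℂ) : WithTop ℂ) r - K ≤
      ValueDistribution.characteristic f ⊤ r := by
  set g : ℂ → ℂ := fun z => f z - 1 with hg
  have hgm : Meromorphic g := fun z => (meromorphic_f z).sub (MeromorphicAt.const 1 z)
  set K1 := max |Real.log ‖g 0‖| |Real.log ‖meromorphicTrailingCoeffAt g 0‖| with hK1
  have hK10 : 0 ≤ K1 := (abs_nonneg _).trans (le_max_left _ _)
  have hlog2 : 0 ≤ Real.log 2 := Real.log_nonneg (by norm_num)
  refine ⟨K1 + Real.log 2, by linarith, ?_⟩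
  intro r hr
  have h1 := ValueDistribution.abs_characteristic_sub_characteristic_shift_le (a₀ := (1 : ℂ))
    (r := r) meromorphic_f
  have h2 := ValueDistribution.characteristic_sub_characteristic_inv_le (R := r) hgm
  rw [← hK1] at h2
  have h3 : ValueDistribution.proximity g⁻¹ ⊤ r ≤ ValueDistribution.characteristic g⁻¹ ⊤ r := by
    have := ValueDistribution.logCounting_nonneg (f := g⁻¹) (e := ⊤) hr
    simp only [ValueDistribution.characteristic, Pi.add_apply]
    linarith
  have h4 : ValueDistribution.proximity g⁻¹ ⊤ r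
      = ValueDistribution.proximity f ((1 : ℂ) : WithTop ℂ) r := by
    rw [ValueDistribution.proximity_inv,
      ValueDistribution.proximity_coe_eq_proximity_sub_const_zero]
    rfl
  have h5 := (abs_le.mp h1).1
  have h6 := (abs_le.mp h2).1
  simp only [norm_one, Real.posLog_one, zero_add] at h5
  have h7 : ValueDistribution.characteristic (fun z => f z - 1) ⊤ r
      = ValueDistribution.characteristic g ⊤ r := rfl
  rw [h7] at h5
  linarith

lemma f_I (z : ℂ) : f (Complex.I * z) = Complex.I * f z := by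
  unfold f
  rw [A_I, B_I, mul_div_assoc]

lemma f_neg (z : ℂ) : f (-z) = -f z := by
  have h : -z = Complex.I * (Complex.I * z) := by
    rw [← mul_assoc, Complex.I_mul_I]; ring
  rw [h, f_I, f_I, ← mul_assoc, Complex.I_mul_I]
  ring

lemma prox_I (r : ℝ) : ValueDistribution.proximity f ((Complex.I : ℂ) : WithTop ℂ) r =
    ValueDistribution.proximity f ((1 : ℂ) : WithTop ℂ) r := by
  rw [ValueDistribution.proximity_coe, ValueDistribution.proximity_coe,
    ← circleAverage_rot (fun z => log⁺ ‖f z - Complex.I‖⁻¹) Complex.I (by simp)]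
  congr 1
  ext z
  congr 2
  rw [f_I]
  have : Complex.I * f z - Complex.I = Complex.I * (f z - 1) := by ring
  rw [this, norm_mul, Complex.norm_I, one_mul]

lemma prox_neg (r : ℝ) : ValueDistribution.proximity f ((-1 : ℂ) : WithTop ℂ) r =
    ValueDistribution.proximity f ((1 : ℂ) : WithTop ℂ) r := by
  rw [ValueDistribution.proximity_coe, ValueDistribution.proximity_coe,
    ← circleAverage_rot (fun z => log⁺ ‖f z - (-1)‖⁻¹) (-1) (by simp)]
  congr 1
  ext z
  congr 2
  rw [neg_one_mul, f_neg]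
  have : -f z - -1 = -(f z - 1) := by ring
  rw [this, norm_neg]

lemma exists_between {r : ℝ} (hr : R 0 < r) : ∃ n, R n ≤ r ∧ r ≤ R (n + 1) := by
  obtain ⟨n, h1, h2⟩ := R_strictMono.exists_between_of_tendsto_atTop R_tendsto hr
  exact ⟨n, h1.le, h2⟩

lemma L_le {n : ℕ} {r θ : ℝ} (hr : 0 < r) :
    L (n + 1) r θ ≤ R (n + 1) * (2 * r - R (n + 1)) := by
  unfold L
  have hR := R_pos (n + 1)
  have h1 := Real.log_le_sub_one_of_pos (show 0 < r / R (n + 1) by positivity)
  have h2 : R (n + 1) ^ 2 * Real.log (r / R (n + 1)) ≤ R (n + 1) ^ 2 * (r / R (n + 1) - 1) :=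
    mul_le_mul_of_nonneg_left h1 (by positivity)
  have h3 : R (n + 1) ^ 2 * (r / R (n + 1) - 1) = R (n + 1) * r - R (n + 1) ^ 2 := by
    field_simp
  have h4 : R (n + 1) * r * Real.cos θ ≤ R (n + 1) * r * 1 :=
    mul_le_mul_of_nonneg_left (Real.cos_le_one θ) (by positivity)
  nlinarith

lemma p_zero {n : ℕ} {r : ℝ} (hr : 0 < r) (h : 2 * r ≤ R (n + 1)) : p n r = 0 := by
  unfold p
  have h1 : ∀ θ, max 0 (L (n + 1) r θ) = 0 := by
    intro θ
    apply max_eq_left
    refine (L_le hr).trans ?_
    have hR := R_pos (n + 1)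
    nlinarith
  simp [h1]

lemma p_le {n : ℕ} {r : ℝ} (hr : 0 < r) : p n r ≤ r ^ 2 := by
  by_cases h : 2 * r ≤ R (n + 1)
  · rw [p_zero hr h]
    positivity
  · push Not at h
    unfold p
    have h1 : ∀ θ ∈ Set.Icc (0 : ℝ) (1 / 2), max 0 (L (n + 1) r θ) ≤ 2 * r ^ 2 := by
      intro θ _
      apply max_le (by positivity)
      refine (L_le hr).trans ?_
      have hR := R_pos (n + 1)
      nlinarith
    have h2 := intervalIntegral.integral_mono_on (μ := volume) (a := 0) (b := 1 / 2) (by norm_num)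
      ((continuous_maxL (n + 1) r).intervalIntegrable _ _) intervalIntegrable_const h1
    refine h2.trans (le_of_eq ?_)
    rw [intervalIntegral.integral_const, smul_eq_mul]
    ring

lemma p_nonneg (n : ℕ) (r : ℝ) : 0 ≤ p n r := by
  unfold p
  apply intervalIntegral.integral_nonneg (by norm_num)
  intro θ _
  exact le_max_left _ _

lemma p_top (n : ℕ) : 7 / 16 * R (n + 1) ^ 2 ≤ p n (R (n + 1)) := by
  unfold p
  have hR := R_pos (n + 1)
  have h1 : ∀ θ ∈ Set.Icc (0 : ℝ) (1 / 2), 7 / 8 * R (n + 1) ^ 2 ≤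
      max 0 (L (n + 1) (R (n + 1)) θ) := by
    intro θ hθ
    refine le_trans ?_ (le_max_right _ _)
    unfold L
    rw [div_self hR.ne', Real.log_one]
    have := sector_cos hθ.1 hθ.2
    nlinarith [sq_nonneg (R (n + 1))]
  have h2 := intervalIntegral.integral_mono_on (μ := volume) (a := 0) (b := 1 / 2) (by norm_num)
      intervalIntegrable_const ((continuous_maxL (n + 1) (R (n + 1))).intervalIntegrable _ _) h1
  refine le_trans (le_of_eq ?_) h2
  rw [intervalIntegral.integral_const, smul_eq_mul]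
  ring

/-- finite order -/
lemma finite_order : ∀ᶠ r in atTop, ValueDistribution.characteristic f ⊤ r ≤ r ^ (3 : ℝ) := by
  obtain ⟨K, hK0, hK⟩ := char_upper
  filter_upwards [eventually_gt_atTop (R 0), eventually_ge_atTop (K + 23)] with r hr1 hr2
  obtain ⟨n, h1, h2⟩ := exists_between hr1
  have hr : 0 < r := (R_pos n).trans_le h1
  have h3 := hK n r h1 h2
  have h4 := p_le (n := n) hr
  have h5 : R n * r ≤ r ^ 2 := by nlinarith
  have h6 : r ^ (3 : ℝ) = r ^ 3 := by
    have := Real.rpow_natCast r 3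
    simp
  rw [h6]
  have hr1' : 1 ≤ r := by linarith
  nlinarith [sq_nonneg r, mul_nonneg hK0 hr.le]

/-- deficiency of the value 1 -/
lemma deficient_one : ∃ ε : ℝ, 0 < ε ∧ ∀ᶠ r in atTop,
    ε * ValueDistribution.characteristic f ⊤ r ≤
      ValueDistribution.proximity f ((1 : ℂ) : WithTop ℂ) r := by
  obtain ⟨K, hK0, hK⟩ := char_upper
  -- the three lower bounds
  refine ⟨(K + 40000 + 256 * π)⁻¹, by positivity, ?_⟩
  filter_upwards [eventually_gt_atTop (R 0)] with r hr1
  obtain ⟨n, h1, h2⟩ := exists_between hr1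
  have hr : 0 < r := (R_pos n).trans_le h1
  have h3 := hK n r h1 h2
  have h4 := lower_one h1 h2
  have h5 := lower_two h1 h2
  set m := ValueDistribution.proximity f ((1 : ℂ) : WithTop ℂ) r with hm
  have h6 := Rr_ge' h1
  have hpi := Real.pi_gt_three
  have hpi4 := Real.pi_lt_d2
  have hm1 : 7 / 640 * (R n * r) ≤ 2 * π * m := by
    have := mul_le_mul_of_nonneg_left h4 (show 0 ≤ 2 * π by positivity)
    rwa [← mul_assoc, mul_inv_cancel₀ (by positivity), one_mul] at this
  have hm2 : 1 / 8 * p n r - 1 / 16 * (2 * (R n * r) + 3) ≤ 2 * π * m := by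
    have := mul_le_mul_of_nonneg_left h5 (show 0 ≤ 2 * π by positivity)
    rwa [← mul_assoc, mul_inv_cancel₀ (by positivity), one_mul] at this
  have hm3 : R n * r ≤ 640 / 7 * (2 * 3.15) * m := by nlinarith
  have hm4 : 1 ≤ m := by nlinarith
  rw [inv_mul_le_iff₀ (by positivity)]
  nlinarith

/-- arithmetic core of the unboundedness proof -/
lemma arith_core {Rn X m D q : ℝ} (hX1 : 1000000 ≤ X) (hD : 0 ≤ D)
    (hq3 : 3 < q) (hq4 : q < 3.15)
    (h6 : m ≤ D * X) (h8 : 7 / 128 * (Rn * X) ≤ 2 * q * m + 1 / 16 * (2 * X + 3))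
    (hbig : 1000 * (D + 1) < Rn) : False := by
  have hX : 0 < X := by linarith
  have h9 : 2 * q * m ≤ 7 * (D * X) := by
    have h1 : 2 * q * m ≤ 2 * q * (D * X) := mul_le_mul_of_nonneg_left h6 (by linarith)
    have h2 : 2 * q * (D * X) ≤ 7 * (D * X) := by
      apply mul_le_mul_of_nonneg_right (by linarith)
      positivity
    linarith
  have h10 : 7 / 128 * (Rn * X) ≤ (7 * D + 1) * X := by linarith
  have h11 : 7 / 128 * Rn ≤ 7 * D + 1 := by
    have : 7 / 128 * Rn * X ≤ (7 * D + 1) * X := by linarith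
    exact le_of_mul_le_mul_right this hX
  linarith

/-- unboundedness -/
lemma unbounded (C : ℝ) : ¬ ∀ᶠ r in atTop, ValueDistribution.characteristic f ⊤ (10 * r) ≤
    C * ValueDistribution.characteristic f ⊤ r := by
  intro hev
  obtain ⟨K, hK0, hK⟩ := char_upper
  obtain ⟨K', hK0', hK'⟩ := char_lower
  have htend : Tendsto (fun n => R (n + 1) / 10) atTop atTop :=
    (R_tendsto.comp (tendsto_add_atTop_nat 1)).atTop_div_const (by norm_num)
  have hev' := htend.eventually hev
  have hev2 : ∀ᶠ n in atTop, (1000 * ((|C| * (K + 1) + K') + 1)) < R n :=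
    R_tendsto.eventually_gt_atTop _
  obtain ⟨n, hn, hn2⟩ := (hev'.and hev2).exists
  have hRn := R_ge n
  have hRn1 := R_ge (n + 1)
  have hsucc := R_succ_ge n
  have hsq := R_succ n
  have h10 : 10 * (R (n + 1) / 10) = R (n + 1) := by ring
  rw [h10] at hn
  have h1 := hK n (R (n + 1) / 10) (by linarith) (by linarith)
  rw [p_zero (by linarith) (by linarith)] at h1
  have h2 := hK' (R (n + 1)) (by linarith)
  have h3 := lower_two (n := n) (r := R (n + 1)) (R_lt_succ n).le le_rfl
  have h4 := p_top n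
  set m := ValueDistribution.proximity f ((1 : ℂ) : WithTop ℂ) (R (n + 1)) with hm
  have hm2 : 1 / 8 * p n (R (n + 1)) - 1 / 16 * (2 * (R n * R (n + 1)) + 3) ≤ 2 * π * m := by
    have := mul_le_mul_of_nonneg_left h3 (show 0 ≤ 2 * π by positivity)
    rwa [← mul_assoc, mul_inv_cancel₀ (by positivity), one_mul] at this
  have hT0 : 0 ≤ ValueDistribution.characteristic f ⊤ (R (n + 1) / 10) :=
    ValueDistribution.characteristic_nonneg (by linarith)
  have hX0 : 0 ≤ R n * R (n + 1) := by
    have := R_pos n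
    have := R_pos (n + 1)
    positivity
  have h5 : C * ValueDistribution.characteristic f ⊤ (R (n + 1) / 10) ≤
      |C| * (K + R n * R (n + 1)) := by
    have e1 : C * ValueDistribution.characteristic f ⊤ (R (n + 1) / 10) ≤
        |C| * ValueDistribution.characteristic f ⊤ (R (n + 1) / 10) :=
      mul_le_mul_of_nonneg_right (le_abs_self C) hT0
    have e2 : ValueDistribution.characteristic f ⊤ (R (n + 1) / 10) ≤ K + R n * R (n + 1) := by
      linarith
    exact e1.trans (mul_le_mul_of_nonneg_left e2 (abs_nonneg C))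
  have hX1 : 1000000 ≤ R n * R (n + 1) := by
    have := mul_le_mul hRn hRn1 (by norm_num) (by linarith)
    linarith
  have hsqX : R (n + 1) ^ 2 = R n * (R n * R (n + 1)) := by
    rw [hsq]; ring
  have h6 : m ≤ |C| * (K + R n * R (n + 1)) + K' := by linarith
  have h7 : |C| * (K + R n * R (n + 1)) + K' ≤ (|C| * (K + 1) + K') * (R n * R (n + 1)) := by
    have a1 : |C| * K ≤ |C| * K * (R n * R (n + 1)) := by
      apply le_mul_of_one_le_right (by positivity) (by linarith)
    have a2 : K' ≤ K' * (R n * R (n + 1)) := le_mul_of_one_le_right hK0' (by linarith)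
    linarith
  rw [hsqX] at h4
  have h8 : 7 / 128 * (R n * (R n * R (n + 1))) ≤
      2 * π * m + 1 / 16 * (2 * (R n * R (n + 1)) + 3) := by linarith
  exact arith_core hX1 (by positivity) Real.pi_gt_three Real.pi_lt_d2 (h6.trans h7) h8 hn2

theorem main :
    ¬ (∀ f : ℂ → ℂ, MeromorphicOn f Set.univ →
      (∃ ρ : ℝ, ∀ᶠ r in atTop, ValueDistribution.characteristic f ⊤ r ≤ r ^ ρ) →
      (∃ S : Finset (WithTop ℂ), 2 < S.card ∧
        ∀ a ∈ S, ∃ ε : ℝ, 0 < ε ∧
          ∀ᶠ r in atTop, ε * ValueDistribution.characteristic f ⊤ r ≤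
            ValueDistribution.proximity f a r) →
      ∀ σ : ℝ, 1 < σ → ∃ C : ℝ, ∀ᶠ r in atTop,
        ValueDistribution.characteristic f ⊤ (σ * r) ≤
          C * ValueDistribution.characteristic f ⊤ r) := by
  intro H
  classical
  obtain ⟨C, hC⟩ := H f meromorphic_f.meromorphicOn ⟨3, finite_order⟩
    ⟨{((1 : ℂ) : WithTop ℂ), ((Complex.I : ℂ) : WithTop ℂ), ((-1 : ℂ) : WithTop ℂ)}, by
      rw [Finset.card_insert_of_notMem, Finset.card_insert_of_notMem, Finset.card_singleton]
      · norm_num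
      · simp only [Finset.mem_singleton, WithTop.coe_inj]
        intro h
        have := congrArg Complex.im h
        simp at this
      · simp only [Finset.mem_insert, Finset.mem_singleton, WithTop.coe_inj, not_or]
        constructor
        · intro h
          have := congrArg Complex.im h
          simp at this
        · intro h
          have := congrArg Complex.re h
          norm_num at this, by
      intro a ha
      obtain ⟨ε, hε, hev⟩ := deficient_one
      refine ⟨ε, hε, ?_⟩
      simp only [Finset.mem_insert, Finset.mem_singleton] at ha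
      rcases ha with rfl | rfl | rfl
      · exact hev
      · filter_upwards [hev] with r hr
        rw [prox_I]
        exact hr
      · filter_upwards [hev] with r hr
        rw [prox_neg]
        exact hr⟩ 10 (by norm_num)
  exact unbounded C hC

end Pool.Agent.Lib.MP_b2d7d1_an
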