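import Pool.Agent.Lib.MP_b2d7d1_an.Averages

set_option autoImplicit false

open Filter Topology MeasureTheory Real

namespace Pool.Agent.Lib.MP_b2d7d1_an

/-- The counterexample. -/
noncomputable def f (z : ℂ) : ℂ := A z / B z

lemma circleAverage_ge {g : ℂ → ℝ} {r : ℝ} (hg : CircleIntegrable g 0 r) (hg0 : ∀ z, 0 ≤ g z)
    {a b : ℝ} (ha : 0 ≤ a) (hab : a ≤ b) (hb : b ≤ 2 * π) (h : ℝ → ℝ)
    (hh : IntervalIntegrable h volume a b)
    (hle : ∀ᵐ θ : ℝ, θ ∈ Set.Icc a b → h θ ≤ g (circleMap 0 r θ)) :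
    (2 * π)⁻¹ * ∫ θ in a..b, h θ ≤ circleAverage g 0 r := by
  rw [circleAverage_def, smul_eq_mul]
  apply mul_le_mul_of_nonneg_left _ (by positivity)
  have h1 : IntervalIntegrable (fun θ => g (circleMap 0 r θ)) volume 0 (2 * π) := hg
  have h2 : IntervalIntegrable (fun θ => g (circleMap 0 r θ)) volume a b := by
    apply h1.mono_set
    rw [Set.uIcc_of_le hab, Set.uIcc_of_le (by positivity)]
    exact Set.Icc_subset_Icc ha hb
  calc ∫ θ in a..b, h θ ≤ ∫ θ in a..b, g (circleMap 0 r θ) := by
        apply intervalIntegral.integral_mono_ae_restrict hab hh h2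
        rw [EventuallyLE, ae_restrict_iff' measurableSet_Icc]
        exact hle
    _ ≤ ∫ θ in (0 : ℝ)..(2 * π), g (circleMap 0 r θ) := by
        apply intervalIntegral.integral_mono_interval ha hab hb _ h1
        exact Eventually.of_forall (fun θ => hg0 _)

lemma meromorphic_f : Meromorphic f := fun z => (meromorphic_A z).div (meromorphic_B z)

lemma sector_cos {θ : ℝ} (h0 : 0 ≤ θ) (h1 : θ ≤ 1 / 2) : 7 / 8 ≤ Real.cos θ := by
  have h2 := Real.one_sub_sq_div_two_le_cos (x := θ)
  nlinarith

lemma sector_sin {θ : ℝ} (h0 : 0 ≤ θ) (h1 : θ ≤ 1 / 2) : |Real.sin θ| ≤ 1 / 2 := by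
  rw [abs_of_nonneg (Real.sin_nonneg_of_nonneg_of_le_pi h0 (by linarith [Real.pi_gt_three]))]
  exact (Real.sin_le h0).trans h1

lemma log_four_le : Real.log 4 ≤ 3 := by
  have := Real.log_le_sub_one_of_pos (show (0 : ℝ) < 4 by norm_num)
  linarith

/-- Pointwise bound on the circle. -/
lemma pointwise_circle {n : ℕ} {r θ : ℝ} (h : R n ≤ r) (h' : r ≤ R (n + 1))
    (h0 : 0 ≤ θ) (h1 : θ ≤ 1 / 2)
    (hratio : Real.log 4 + L n r θ ≤ L (n + 1) r θ ∨ Real.log 4 + L (n + 1) r θ ≤ L n r θ)
    (hne : A (circleMap 0 r θ) ≠ B (circleMap 0 r θ)) :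
    1 / 8 * max (L n r θ) (L (n + 1) r θ) ≤ log⁺ ‖f (circleMap 0 r θ) - 1‖⁻¹ := by
  have hr : 0 < r := (R_pos n).trans_le h
  have hz := norm_circleMap' hr.le θ
  have hzpos : 0 < ‖circleMap 0 r θ‖ := by rw [hz]; exact hr
  have e1 := log_U_circle n hr θ
  have e2 := log_U_circle (n + 1) hr θ
  have u1 := U_pos n hzpos
  have u2 := U_pos (n + 1) hzpos
  rw [← e1, ← e2]
  apply pointwise
  · rw [hz]; exact h
  · rw [hz]; exact h'
  · rw [hz, circleMap_re]
    nlinarith [sector_cos h0 h1]
  · rw [hz, circleMap_im, abs_mul, abs_of_pos hr]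
    nlinarith [sector_sin h0 h1]
  · rw [← e1, ← e2] at hratio
    rcases hratio with hh | hh
    · left
      rw [← Real.log_mul (by norm_num) u1.ne'] at hh
      exact (Real.log_le_log_iff (by positivity) u2).mp hh
    · right
      rw [← Real.log_mul (by norm_num) u2.ne'] at hh
      exact (Real.log_le_log_iff (by positivity) u1).mp hh
  · exact hne

lemma circleInt_g (r : ℝ) : CircleIntegrable (fun z => log⁺ ‖f z - 1‖⁻¹) 0 r := by
  have h1 : Meromorphic (fun z => (f z - 1)⁻¹) :=
    fun z => ((meromorphic_f z).sub (MeromorphicAt.const 1 z)).inv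
  have h2 := h1.meromorphicOn.circleIntegrable_posLog_norm (c := 0) (R := r)
  simpa [norm_inv] using h2

lemma proximity_one (r : ℝ) :
    ValueDistribution.proximity f ((1 : ℂ) : WithTop ℂ) r =
      circleAverage (fun z => log⁺ ‖f z - 1‖⁻¹) 0 r := by
  rw [ValueDistribution.proximity_coe]

lemma L_n_ge {n : ℕ} {r θ : ℝ} (h : R n ≤ r) (h0 : 0 ≤ θ) (h1 : θ ≤ 1 / 2) :
    7 / 8 * (R n * r) ≤ L n r θ := by
  unfold L
  have hR := R_pos n
  have hr : 0 < r := hR.trans_le h
  have h2 : 0 ≤ Real.log (r / R n) := by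
    apply Real.log_nonneg
    rw [le_div_iff₀ hR]
    linarith
  have h3 := sector_cos h0 h1
  have h4 : 0 ≤ R n ^ 2 * Real.log (r / R n) := by positivity
  have h5 : R n * r * (7 / 8) ≤ R n * r * Real.cos θ :=
    mul_le_mul_of_nonneg_left h3 (by positivity)
  linarith

lemma L_n_le {n : ℕ} {r θ : ℝ} (hr : 0 < r) : L n r θ ≤ 2 * (R n * r) := by
  have hz : 0 < ‖circleMap 0 r θ‖ := by rw [norm_circleMap' hr.le]; exact hr
  have := log_U_le n hz
  rw [log_U_circle n hr, norm_circleMap' hr.le] at this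
  linarith

lemma L_diff {n : ℕ} {r θ₁ θ₂ : ℝ} :
    (L (n + 1) r θ₁ - L n r θ₁) - (L (n + 1) r θ₂ - L n r θ₂) =
      (R (n + 1) - R n) * r * (Real.cos θ₁ - Real.cos θ₂) := by
  unfold L
  ring

/-- First lower bound. -/
lemma lower_one {n : ℕ} {r : ℝ} (h : R n ≤ r) (h' : r ≤ R (n + 1)) :
    (2 * π)⁻¹ * (7 / 640 * (R n * r)) ≤
      ValueDistribution.proximity f ((1 : ℂ) : WithTop ℂ) r := by
  have hR := R_pos n
  have hr : 0 < r := hR.trans_le h
  have hpi := Real.pi_gt_three
  rw [proximity_one]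
  by_cases hcase : ∀ θ ∈ Set.Icc (0 : ℝ) (1 / 10), Real.log 4 + L n r θ ≤ L (n + 1) r θ
  · have h1 := circleAverage_ge (circleInt_g r) (fun z => Real.posLog_nonneg)
      (a := 0) (b := 1 / 10) le_rfl (by norm_num) (by linarith)
      (fun _ => 7 / 64 * (R n * r)) intervalIntegrable_const (by
        filter_upwards [ae_ne hr.ne'] with θ hθ hmem
        have h2 := pointwise_circle h h' hmem.1 (by linarith [hmem.2]) (Or.inl (hcase θ hmem)) hθ
        refine le_trans ?_ h2
        have h3 := L_n_ge h hmem.1 (by linarith [hmem.2])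
        have h4 := le_max_left (L n r θ) (L (n + 1) r θ)
        linarith)
    refine le_trans (le_of_eq ?_) h1
    rw [intervalIntegral.integral_const, smul_eq_mul]
    ring
  · push Not at hcase
    obtain ⟨θ₁, hθ₁, hlt⟩ := hcase
    have h1 := circleAverage_ge (circleInt_g r) (fun z => Real.posLog_nonneg)
      (a := 2 / 5) (b := 1 / 2) (by norm_num) (by norm_num) (by linarith)
      (fun _ => 7 / 64 * (R n * r)) intervalIntegrable_const (by
        filter_upwards [ae_ne hr.ne'] with θ hθ hmem
        have hθ0 : 0 ≤ θ := by linarith [hmem.1]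
        have hlow : Real.log 4 + L (n + 1) r θ ≤ L n r θ := by
          have h2 := L_diff (n := n) (r := r) (θ₁ := θ₁) (θ₂ := θ)
          have h3 : 1 / 50 ≤ Real.cos θ₁ - Real.cos θ := by
            have c1 := Real.one_sub_sq_div_two_le_cos (x := θ₁)
            have c2 : Real.cos θ ≤ 1 - 2 / π ^ 2 * θ ^ 2 :=
              Real.cos_le_one_sub_mul_cos_sq (by
                rw [abs_of_nonneg hθ0]; linarith [hmem.2])
            have c3 : 1 / 5 ≤ 2 / π ^ 2 := by
              rw [div_le_div_iff₀ (by norm_num) (by positivity)]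
              have := Real.pi_lt_d2
              nlinarith
            have c4 : (4 : ℝ) / 25 ≤ θ ^ 2 := by nlinarith [hmem.1]
            have c5 : 1 / 5 * (4 / 25) ≤ 2 / π ^ 2 * θ ^ 2 := by
              apply mul_le_mul c3 c4 (by norm_num) (by positivity)
            have c6 : θ₁ ^ 2 ≤ 1 / 100 := by nlinarith [hθ₁.1, hθ₁.2]
            linarith
          have h4 : 1000000 ≤ (R (n + 1) - R n) * r := by
            have := R_succ_ge n
            have := Rr_ge' h
            nlinarith [R_ge n]
          have h5 : 1000000 * (1 / 50) ≤ (R (n + 1) - R n) * r * (Real.cos θ₁ - Real.cos θ) :=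
            mul_le_mul h4 h3 (by norm_num) (by linarith)
          have h6 := log_four_le
          linarith
        have h2 := pointwise_circle h h' hθ0 hmem.2 (Or.inr hlow) hθ
        refine le_trans ?_ h2
        have h3 := L_n_ge h hθ0 hmem.2
        have h4 := le_max_left (L n r θ) (L (n + 1) r θ)
        linarith)
    refine le_trans (le_of_eq ?_) h1
    rw [intervalIntegral.integral_const, smul_eq_mul]
    ring

/-- Second lower bound. -/
lemma lower_two {n : ℕ} {r : ℝ} (h : R n ≤ r) (h' : r ≤ R (n + 1)) :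
    (2 * π)⁻¹ * (1 / 8 * p n r - 1 / 16 * (2 * (R n * r) + 3)) ≤
      ValueDistribution.proximity f ((1 : ℂ) : WithTop ℂ) r := by
  have hR := R_pos n
  have hr : 0 < r := hR.trans_le h
  have hpi := Real.pi_gt_three
  rw [proximity_one]
  have hcont : Continuous (fun θ => 1 / 8 * max 0 (L (n + 1) r θ) - 1 / 8 * (2 * (R n * r) + 3)) := by
    have := continuous_maxL (n + 1) r
    fun_prop
  have h1 := circleAverage_ge (circleInt_g r) (fun z => Real.posLog_nonneg)
      (a := 0) (b := 1 / 2) le_rfl (by norm_num) (by linarith)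
      (fun θ => 1 / 8 * max 0 (L (n + 1) r θ) - 1 / 8 * (2 * (R n * r) + 3))
      (hcont.intervalIntegrable _ _) (by
        filter_upwards [ae_ne hr.ne'] with θ hθ hmem
        have hLn := L_n_le (n := n) (r := r) (θ := θ) hr
        have hlog := log_four_le
        have hRr : 0 ≤ R n * r := by positivity
        by_cases hr1 : Real.log 4 + L n r θ ≤ L (n + 1) r θ
        · have h2 := pointwise_circle h h' hmem.1 hmem.2 (Or.inl hr1) hθ
          refine le_trans ?_ h2
          have h3 := L_n_ge h hmem.1 hmem.2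
          have h4 : max 0 (L (n + 1) r θ) ≤ max (L n r θ) (L (n + 1) r θ) :=
            max_le_max (by linarith) le_rfl
          linarith
        · push Not at hr1
          have h5 : max 0 (L (n + 1) r θ) ≤ 2 * (R n * r) + 3 := by
            apply max_le
            · linarith
            · linarith
          have h6 : 0 ≤ log⁺ ‖f (circleMap 0 r θ) - 1‖⁻¹ := Real.posLog_nonneg
          linarith)
  refine le_trans (le_of_eq ?_) h1
  rw [intervalIntegral.integral_sub, intervalIntegral.integral_const_mul,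
    intervalIntegral.integral_const, smul_eq_mul]
  · unfold p
    ring
  · have := continuous_maxL (n + 1) r
    apply Continuous.intervalIntegrable
    fun_prop
  · exact intervalIntegrable_const

end Pool.Agent.Lib.MP_b2d7d1_an
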