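import Pool.Agent.Lib.MP_b2d7d1_an.Defs

set_option autoImplicit false

open Filter Topology

namespace Pool.Agent.Lib.MP_b2d7d1_an

lemma thousand_mul_R_le {k n : ℕ} (h : k < n) : 1000 * R k ≤ R n :=
  (R_succ_ge k).trans (R_mono h)

lemma small_k_bound {k n : ℕ} (h : k < n) {r : ℝ} (hr : 0 ≤ r) :
    Real.exp (2 * R k * r - R k ^ 2) ≤ Real.exp (R n * r / 500) := by
  apply Real.exp_le_exp.mpr
  have h1 := thousand_mul_R_le h
  have h2 : 2 * R k * r ≤ R n * r / 500 := by nlinarith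
  have h3 := sq_nonneg (R k)
  linarith

lemma large_k_bound {k n : ℕ} (h : n + 2 ≤ k) {r : ℝ} (hr0 : 0 ≤ r) (hr : r ≤ R (n + 1)) :
    Real.exp (2 * R k * r - R k ^ 2) ≤ (1 / 2) ^ (k + 1) := by
  apply exp_tail_le
  have h1 : 1000 * R (n + 1) ≤ R k := thousand_mul_R_le (by omega)
  linarith

lemma one_le_rho {n : ℕ} {r : ℝ} (h : R n ≤ r) : 1 ≤ rho n r := by
  unfold rho
  apply one_le_pow₀
  rw [le_div_iff₀ (R_pos n)]
  linarith

lemma Rr_ge {n : ℕ} {r : ℝ} (h : R n ≤ r) : 1000 * ((n : ℝ) + 1) ≤ R n * r := by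
  have h1 := succ_le_R n
  have h2 := R_ge n
  have h3 : (0 : ℝ) ≤ n := Nat.cast_nonneg n
  nlinarith

lemma Rr_ge' {n : ℕ} {r : ℝ} (h : R n ≤ r) : 1000000 ≤ R n * r := by
  have h2 := R_ge n
  nlinarith

/-- Upper bound for the two entire functions. -/
lemma upper_aux (F : ℕ → ℂ) (hF : Summable F) (n : ℕ) (r S : ℝ) (h : R n ≤ r)
    (h' : r ≤ R (n + 1))
    (hb : ∀ k, ‖F k‖ ≤ 4 * Real.exp (2 * R k * r - R k ^ 2)) (hS : ‖F (n + 1)‖ ≤ S) :
    ‖∑' k, F k‖ ≤ Real.exp (3 * (R n * r)) + S := by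
  have hr0 : 0 ≤ r := (R_pos n).le.trans h
  have h1 := norm_tsum_sub_le F hF n (4 * Real.exp (R n * r / 500)) 4 (by norm_num)
    (fun k hk => (hb k).trans (mul_le_mul_of_nonneg_left (small_k_bound hk hr0) (by norm_num)))
    (fun k hk => (hb k).trans (mul_le_mul_of_nonneg_left (large_k_bound hk hr0 h') (by norm_num)))
  have h2 : ‖F n‖ ≤ 4 * Real.exp (2 * (R n * r)) := by
    refine (hb n).trans (mul_le_mul_of_nonneg_left (Real.exp_le_exp.mpr ?_) (by norm_num))
    have := sq_nonneg (R n)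
    linarith
  have h3 : ‖∑' k, F k‖ ≤ ‖∑' k, F k - (F n + F (n + 1))‖ + (‖F n‖ + ‖F (n + 1)‖) := by
    calc ‖∑' k, F k‖ = ‖(∑' k, F k - (F n + F (n + 1))) + (F n + F (n + 1))‖ := by
          congr 1; ring
      _ ≤ _ := (norm_add_le _ _).trans (add_le_add le_rfl (norm_add_le _ _))
  have h4 := Rr_ge h
  have h5 := Rr_ge' h
  have h6 : Real.exp (R n * r / 500) ≤ Real.exp (2 * (R n * r)) :=
    Real.exp_le_exp.mpr (by linarith)
  have h7 : (1 : ℝ) ≤ Real.exp (2 * (R n * r)) := Real.one_le_exp (by linarith)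
  have h8 : 4 * (n : ℝ) + 8 ≤ Real.exp (R n * r) := by
    have := Real.add_one_le_exp (R n * r)
    have h3 : (0 : ℝ) ≤ n := Nat.cast_nonneg n
    linarith
  have h9 : Real.exp (3 * (R n * r)) = Real.exp (R n * r) * Real.exp (2 * (R n * r)) := by
    rw [← Real.exp_add]; congr 1; ring
  have h10 : (4 * (n : ℝ) + 8) * Real.exp (2 * (R n * r)) ≤ Real.exp (3 * (R n * r)) := by
    rw [h9]
    exact mul_le_mul_of_nonneg_right h8 (Real.exp_pos _).le
  have h11 : (n : ℝ) * (4 * Real.exp (R n * r / 500)) ≤ n * (4 * Real.exp (2 * (R n * r))) := by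
    gcongr
  nlinarith

lemma upper_B {n : ℕ} {z : ℂ} (h : R n ≤ ‖z‖) (h' : ‖z‖ ≤ R (n + 1)) :
    ‖B z‖ ≤ Real.exp (3 * (R n * ‖z‖)) + (U (n + 1) z + U (n + 1) (-z)
      + U (n + 1) (Complex.I * z) + U (n + 1) (-(Complex.I * z))) :=
  upper_aux _ (summable_tb z) n ‖z‖ _ h h' (fun k => norm_tb_le' k z) (norm_tb_le (n + 1) z)

lemma upper_A {n : ℕ} {z : ℂ} (h : R n ≤ ‖z‖) (h' : ‖z‖ ≤ R (n + 1)) :
    ‖A z‖ ≤ Real.exp (3 * (R n * ‖z‖)) + (U (n + 1) z + U (n + 1) (-z)
      + U (n + 1) (Complex.I * z) + U (n + 1) (-(Complex.I * z))) :=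
  upper_aux _ (summable_ta z) n ‖z‖ _ h h' (fun k => norm_ta_le' k z) (norm_ta_le (n + 1) z)

lemma rho_pos (k : ℕ) {r : ℝ} (hr : 0 < r) : 0 < rho k r := by
  unfold rho
  have := R_pos k
  positivity

lemma U_pos (k : ℕ) {z : ℂ} (hz : 0 < ‖z‖) : 0 < U k z :=
  mul_pos (rho_pos k hz) (Real.exp_pos _)

lemma log_U_le (k : ℕ) {z : ℂ} (hz : 0 < ‖z‖) : Real.log (U k z) ≤ 2 * R k * ‖z‖ := by
  rw [Real.log_le_iff_le_exp (U_pos k hz)]
  refine (U_le k z).trans (Real.exp_le_exp.mpr ?_)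
  have := sq_nonneg (R k)
  linarith

lemma le_log_U {n : ℕ} {z : ℂ} (h : R n ≤ ‖z‖) (hx : 7 / 8 * ‖z‖ ≤ z.re) :
    7 / 8 * (R n * ‖z‖) ≤ Real.log (U n z) := by
  have hz : 0 < ‖z‖ := (R_pos n).trans_le h
  rw [Real.le_log_iff_exp_le (U_pos n hz)]
  unfold U
  have h1 := one_le_rho h
  have h2 := R_pos n
  calc Real.exp (7 / 8 * (R n * ‖z‖)) ≤ Real.exp (R n * z.re) := by
        apply Real.exp_le_exp.mpr
        nlinarith
    _ ≤ rho n ‖z‖ * Real.exp (R n * z.re) := le_mul_of_one_le_left (Real.exp_pos _).le h1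

lemma V_le_U (k : ℕ) {z : ℂ} (hz : 0 < ‖z‖) (hx : 7 / 8 * ‖z‖ ≤ z.re) (hy : |z.im| ≤ ‖z‖ / 2) :
    V k z ≤ Real.exp (13 / 16 * Real.log (U k z)) := by
  have h1 : V k z = Real.exp (Real.log (U k z) - R k * z.re + R k * |z.im|) := by
    rw [Real.exp_add, Real.exp_sub, Real.exp_log (U_pos k hz)]
    unfold U V
    have := Real.exp_pos (R k * z.re)
    field_simp
  rw [h1]
  apply Real.exp_le_exp.mpr
  have h2 := log_U_le k hz
  have h3 := R_pos k
  have h4 : 3 / 8 * ‖z‖ ≤ z.re - |z.im| := by linarith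
  have h5 : R k * (3 / 8 * ‖z‖) ≤ R k * (z.re - |z.im|) := mul_le_mul_of_nonneg_left h4 h3.le
  linarith

lemma norm_tb_sub (k : ℕ) {z : ℂ} (hx : 0 ≤ z.re) :
    ‖tb k z - q k z * Complex.exp (R k * z)‖ ≤ 3 * V k z := by
  have h1 : tb k z - q k z * Complex.exp (R k * z) = q k z * (bb (R k * z) -
      Complex.exp (R k * z)) := by unfold tb; ring
  rw [h1, norm_mul, norm_q]
  have h2 : ‖bb (R k * z) - Complex.exp (R k * z)‖ ≤ 3 * Real.exp (R k * |z.im|) := by
    have h3 : bb (R k * z) - Complex.exp (R k * z) = Complex.exp (-(R k * z)) +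
      Complex.exp (Complex.I * (R k * z)) + Complex.exp (-(Complex.I * (R k * z))) := by
      unfold bb; ring
    rw [h3]
    have hR := R_pos k
    have e1 : ‖Complex.exp (-(R k * z))‖ ≤ Real.exp (R k * |z.im|) := by
      rw [Complex.norm_exp]
      apply Real.exp_le_exp.mpr
      simp
      have : 0 ≤ R k * z.re := by positivity
      have : 0 ≤ R k * |z.im| := by positivity
      linarith
    have e2 : ‖Complex.exp (Complex.I * (R k * z))‖ ≤ Real.exp (R k * |z.im|) := by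
      rw [Complex.norm_exp]
      apply Real.exp_le_exp.mpr
      simp
      have := mul_le_mul_of_nonneg_left (neg_abs_le z.im) hR.le
      linarith
    have e3 : ‖Complex.exp (-(Complex.I * (R k * z)))‖ ≤ Real.exp (R k * |z.im|) := by
      rw [Complex.norm_exp]
      apply Real.exp_le_exp.mpr
      simp
      exact mul_le_mul_of_nonneg_left (le_abs_self z.im) hR.le
    calc _ ≤ _ := (norm_add_le _ _).trans (add_le_add (norm_add_le _ _) le_rfl)
      _ ≤ _ := by linarith
  have h0 := rho_nonneg k (norm_nonneg z)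
  unfold V
  calc rho k ‖z‖ * ‖bb (R k * z) - Complex.exp (R k * z)‖
      ≤ rho k ‖z‖ * (3 * Real.exp (R k * |z.im|)) := mul_le_mul_of_nonneg_left h2 h0
    _ = _ := by ring

lemma norm_tb_sub_ta (k : ℕ) {z : ℂ} (hx : 0 ≤ z.re) :
    ‖tb k z - ta k z‖ ≤ 6 * V k z := by
  have h1 : tb k z - ta k z = q k z * (bb (R k * z) - aa (R k * z)) := by
    unfold tb ta; ring
  rw [h1, norm_mul, norm_q]
  have h2 : ‖bb (R k * z) - aa (R k * z)‖ ≤ 6 * Real.exp (R k * |z.im|) := by
    have h3 : bb (R k * z) - aa (R k * z) = 2 * Complex.exp (-(R k * z)) +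
      (1 + Complex.I) * Complex.exp (Complex.I * (R k * z))
      + (1 - Complex.I) * Complex.exp (-(Complex.I * (R k * z))) := by
      unfold bb aa; ring
    rw [h3]
    have hR := R_pos k
    have e1 : ‖Complex.exp (-(R k * z))‖ ≤ Real.exp (R k * |z.im|) := by
      rw [Complex.norm_exp]
      apply Real.exp_le_exp.mpr
      simp
      have : 0 ≤ R k * z.re := by positivity
      have : 0 ≤ R k * |z.im| := by positivity
      linarith
    have e2 : ‖Complex.exp (Complex.I * (R k * z))‖ ≤ Real.exp (R k * |z.im|) := by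
      rw [Complex.norm_exp]
      apply Real.exp_le_exp.mpr
      simp
      have := mul_le_mul_of_nonneg_left (neg_abs_le z.im) hR.le
      linarith
    have e3 : ‖Complex.exp (-(Complex.I * (R k * z)))‖ ≤ Real.exp (R k * |z.im|) := by
      rw [Complex.norm_exp]
      apply Real.exp_le_exp.mpr
      simp
      exact mul_le_mul_of_nonneg_left (le_abs_self z.im) hR.le
    have c1 : ‖(1 : ℂ) + Complex.I‖ ≤ 2 := (norm_add_le _ _).trans (by simp; norm_num)
    have c2 : ‖(1 : ℂ) - Complex.I‖ ≤ 2 := (norm_sub_le _ _).trans (by simp; norm_num)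
    have d1 : ‖2 * Complex.exp (-(R k * z))‖ ≤ 2 * Real.exp (R k * |z.im|) := by
      rw [norm_mul]
      apply mul_le_mul _ e1 (norm_nonneg _) (by norm_num)
      simp
    have d2 : ‖(1 + Complex.I) * Complex.exp (Complex.I * (R k * z))‖
        ≤ 2 * Real.exp (R k * |z.im|) := by
      rw [norm_mul]
      exact mul_le_mul c1 e2 (norm_nonneg _) (by norm_num)
    have d3 : ‖(1 - Complex.I) * Complex.exp (-(Complex.I * (R k * z)))‖
        ≤ 2 * Real.exp (R k * |z.im|) := by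
      rw [norm_mul]
      exact mul_le_mul c2 e3 (norm_nonneg _) (by norm_num)
    calc _ ≤ _ := (norm_add_le _ _).trans (add_le_add (norm_add_le _ _) le_rfl)
      _ ≤ _ := by linarith
  have h0 := rho_nonneg k (norm_nonneg z)
  unfold V
  calc rho k ‖z‖ * ‖bb (R k * z) - aa (R k * z)‖
      ≤ rho k ‖z‖ * (6 * Real.exp (R k * |z.im|)) := mul_le_mul_of_nonneg_left h2 h0
    _ = _ := by ring

/-- Pointwise estimates in the sector. -/
lemma sector_est {n : ℕ} {z : ℂ} (h : R n ≤ ‖z‖) (h' : ‖z‖ ≤ R (n + 1))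
    (hx : 7 / 8 * ‖z‖ ≤ z.re) (hy : |z.im| ≤ ‖z‖ / 2)
    (hratio : 4 * U n z ≤ U (n + 1) z ∨ 4 * U (n + 1) z ≤ U n z) (W : ℝ)
    (hW : W = max (Real.log (U n z)) (Real.log (U (n + 1) z))) :
    ‖B z - A z‖ ≤ 20 * Real.exp (13 / 16 * W) ∧ 1 / 2 * Real.exp W ≤ ‖B z‖ := by
  have hz : 0 < ‖z‖ := (R_pos n).trans_le h
  have hre : 0 ≤ z.re := le_trans (by positivity) hx
  have hLn : Real.log (U n z) ≤ W := by rw [hW]; exact le_max_left _ _
  have hLn1 : Real.log (U (n + 1) z) ≤ W := by rw [hW]; exact le_max_right _ _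
  have hW1 : 7 / 8 * (R n * ‖z‖) ≤ W := (le_log_U h hx).trans hLn
  have hRr := Rr_ge h
  have hRr' := Rr_ge' h
  have hn0 : (0 : ℝ) ≤ n := Nat.cast_nonneg n
  set G : ℝ := Real.exp (13 / 16 * W) with hG
  have hVn : V n z ≤ G := (V_le_U n hz hx hy).trans (Real.exp_le_exp.mpr (by linarith))
  have hVn1 : V (n + 1) z ≤ G := (V_le_U (n + 1) hz hx hy).trans (Real.exp_le_exp.mpr (by linarith))
  have hEG : (n : ℝ) * (8 * Real.exp (R n * ‖z‖ / 500)) + 8 ≤ 8 * G := by
    have e1 : ((n : ℝ) + 1) ≤ Real.exp (R n * ‖z‖ / 500) := by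
      have := Real.add_one_le_exp (R n * ‖z‖ / 500)
      linarith
    have e2 : Real.exp (R n * ‖z‖ / 500) * Real.exp (R n * ‖z‖ / 500) ≤ G := by
      rw [← Real.exp_add]
      apply Real.exp_le_exp.mpr
      linarith
    have e3 : 1 ≤ Real.exp (R n * ‖z‖ / 500) := Real.one_le_exp (by positivity)
    nlinarith
  have hB := norm_tsum_sub_le (fun k => tb k z) (summable_tb z) n
    (4 * Real.exp (R n * ‖z‖ / 500)) 4 (by norm_num)
    (fun k hk => (norm_tb_le' k z).trans
      (mul_le_mul_of_nonneg_left (small_k_bound hk hz.le) (by norm_num)))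
    (fun k hk => (norm_tb_le' k z).trans
      (mul_le_mul_of_nonneg_left (large_k_bound hk hz.le h') (by norm_num)))
  have hsum : Summable (fun k => tb k z - ta k z) := (summable_tb z).sub (summable_ta z)
  have hBA : B z - A z = ∑' k, (tb k z - ta k z) :=
    ((summable_tb z).tsum_sub (summable_ta z)).symm
  have hcr : ∀ k, ‖tb k z - ta k z‖ ≤ 8 * Real.exp (2 * R k * ‖z‖ - R k ^ 2) := by
    intro k
    have := norm_tb_le' k z
    have := norm_ta_le' k z
    have := norm_sub_le (tb k z) (ta k z)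
    linarith
  have hD := norm_tsum_sub_le (fun k => tb k z - ta k z) hsum n
    (8 * Real.exp (R n * ‖z‖ / 500)) 8 (by norm_num)
    (fun k hk => (hcr k).trans
      (mul_le_mul_of_nonneg_left (small_k_bound hk hz.le) (by norm_num)))
    (fun k hk => (hcr k).trans
      (mul_le_mul_of_nonneg_left (large_k_bound hk hz.le h') (by norm_num)))
  constructor
  · rw [hBA]
    have h1 := norm_tb_sub_ta n hre
    have h2 := norm_tb_sub_ta (n + 1) hre
    set S := ∑' k, (tb k z - ta k z) with hS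
    have h3 : ‖S‖ ≤ ‖S - ((tb n z - ta n z) + (tb (n + 1) z - ta (n + 1) z))‖
        + (‖tb n z - ta n z‖ + ‖tb (n + 1) z - ta (n + 1) z‖) := by
      calc ‖S‖ = ‖(S - ((tb n z - ta n z) + (tb (n + 1) z - ta (n + 1) z)))
            + ((tb n z - ta n z) + (tb (n + 1) z - ta (n + 1) z))‖ := by congr 1; ring
        _ ≤ _ := (norm_add_le _ _).trans (add_le_add le_rfl (norm_add_le _ _))
    linarith
  · set a1 := q n z * Complex.exp (R n * z) with ha1
    set a2 := q (n + 1) z * Complex.exp (R (n + 1) * z) with ha2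
    have n1 : ‖a1‖ = U n z := by
      rw [ha1, norm_mul, norm_q, Complex.norm_exp]
      unfold U
      simp
    have n2 : ‖a2‖ = U (n + 1) z := by
      rw [ha2, norm_mul, norm_q, Complex.norm_exp]
      unfold U
      simp
    have hU1 : U n z = Real.exp (Real.log (U n z)) := (Real.exp_log (U_pos n hz)).symm
    have hU2 : U (n + 1) z = Real.exp (Real.log (U (n + 1) z)) :=
      (Real.exp_log (U_pos (n + 1) hz)).symm
    have hmain : 3 / 4 * Real.exp W ≤ ‖a1 + a2‖ := by
      have hUn := U_pos n hz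
      have hUn1 := U_pos (n + 1) hz
      rcases hratio with hr | hr
      · have : W = Real.log (U (n + 1) z) := by
          rw [hW]
          apply max_eq_right
          apply Real.log_le_log hUn
          linarith
        rw [this, Real.exp_log hUn1]
        have h3 : ‖a2‖ - ‖a1‖ ≤ ‖a1 + a2‖ := by
          have := norm_sub_norm_le a2 (-a1)
          rw [norm_neg, sub_neg_eq_add, add_comm a2 a1] at this
          exact this
        rw [n1, n2] at h3
        linarith
      · have : W = Real.log (U n z) := by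
          rw [hW]
          apply max_eq_left
          apply Real.log_le_log hUn1
          linarith
        rw [this, Real.exp_log hUn]
        have h3 : ‖a1‖ - ‖a2‖ ≤ ‖a1 + a2‖ := by
          have := norm_sub_norm_le a1 (-a2)
          rw [norm_neg, sub_neg_eq_add] at this
          exact this
        rw [n1, n2] at h3
        linarith
    have h1 := norm_tb_sub n hre
    have h2 := norm_tb_sub (n + 1) hre
    have h3 : ‖a1 + a2‖ ≤ ‖B z‖ + ‖B z - (tb n z + tb (n + 1) z)‖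
        + (‖tb n z - a1‖ + ‖tb (n + 1) z - a2‖) := by
      have : a1 + a2 = B z - (B z - (tb n z + tb (n + 1) z)) - ((tb n z - a1)
          + (tb (n + 1) z - a2)) := by ring
      calc ‖a1 + a2‖ = ‖B z - (B z - (tb n z + tb (n + 1) z)) - ((tb n z - a1)
          + (tb (n + 1) z - a2))‖ := by rw [← this]
        _ ≤ _ := (norm_sub_le _ _).trans (add_le_add (norm_sub_le _ _) (norm_add_le _ _))
    have hB' : ‖B z - (tb n z + tb (n + 1) z)‖ ≤ n * (4 * Real.exp (R n * ‖z‖ / 500)) + 4 := hB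
    have hGW : 40 * G ≤ Real.exp W := by
      have e1 : Real.exp W = Real.exp (3 / 16 * W) * G := by
        rw [hG, ← Real.exp_add]; congr 1; ring
      rw [e1]
      apply mul_le_mul_of_nonneg_right _ (Real.exp_pos _).le
      have := Real.add_one_le_exp (3 / 16 * W)
      linarith
    linarith

lemma pointwise {n : ℕ} {z : ℂ} (h : R n ≤ ‖z‖) (h' : ‖z‖ ≤ R (n + 1))
    (hx : 7 / 8 * ‖z‖ ≤ z.re) (hy : |z.im| ≤ ‖z‖ / 2)
    (hratio : 4 * U n z ≤ U (n + 1) z ∨ 4 * U (n + 1) z ≤ U n z) (hne : A z ≠ B z) :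
    1 / 8 * max (Real.log (U n z)) (Real.log (U (n + 1) z)) ≤
      Real.posLog ‖A z / B z - 1‖⁻¹ := by
  set W := max (Real.log (U n z)) (Real.log (U (n + 1) z)) with hW
  obtain ⟨h1, h2⟩ := sector_est h h' hx hy hratio W hW
  have hz : 0 < ‖z‖ := (R_pos n).trans_le h
  have hW1 : 7 / 8 * (R n * ‖z‖) ≤ W := (le_log_U h hx).trans (le_max_left _ _)
  have hRr' := Rr_ge' h
  have hBpos : 0 < ‖B z‖ := lt_of_lt_of_le (by positivity) h2
  have hB0 : B z ≠ 0 := norm_pos_iff.mp hBpos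
  have hBA : 0 < ‖B z - A z‖ := norm_pos_iff.mpr (sub_ne_zero.mpr hne.symm)
  have h3 : ‖A z / B z - 1‖⁻¹ = ‖B z‖ / ‖B z - A z‖ := by
    have : A z / B z - 1 = -((B z - A z) / B z) := by field_simp; ring
    rw [this, norm_neg, norm_div, inv_div]
  rw [h3]
  have h4 : Real.exp (1 / 8 * W) ≤ ‖B z‖ / ‖B z - A z‖ := by
    rw [le_div_iff₀ hBA]
    calc Real.exp (1 / 8 * W) * ‖B z - A z‖ ≤ Real.exp (1 / 8 * W)
          * (20 * Real.exp (13 / 16 * W)) := mul_le_mul_of_nonneg_left h1 (Real.exp_pos _).le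
      _ = 20 * Real.exp (15 / 16 * W) := by
          rw [mul_left_comm, ← Real.exp_add]; congr 2; ring
      _ ≤ 1 / 2 * Real.exp W := by
          have e1 : Real.exp W = Real.exp (1 / 16 * W) * Real.exp (15 / 16 * W) := by
            rw [← Real.exp_add]; congr 1; ring
          rw [e1]
          have e2 : 40 ≤ Real.exp (1 / 16 * W) := by
            have := Real.add_one_le_exp (1 / 16 * W)
            linarith
          have e3 := Real.exp_pos (15 / 16 * W)
          nlinarith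
      _ ≤ ‖B z‖ := h2
  calc 1 / 8 * W = Real.log (Real.exp (1 / 8 * W)) := (Real.log_exp _).symm
    _ ≤ Real.log (‖B z‖ / ‖B z - A z‖) := Real.log_le_log (Real.exp_pos _) h4
    _ ≤ _ := le_max_right _ _

end Pool.Agent.Lib.MP_b2d7d1_an
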